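import Mathlib

set_option autoImplicit false

/-!
Algebra of three by three real matrices of trace zero.
-/

namespace Pool.Agent.Y167.BR

open Matrix

/-- the characteristic polynomial at a real number -/
lemma det_sub_smul (A : Matrix (Fin 3) (Fin 3) ℝ) (c t : ℝ) (h0 : A.trace = 0)
    (hc : (A * A).trace = c) :
    (A - t • (1 : Matrix (Fin 3) (Fin 3) ℝ)).det = -(t ^ 3 - c / 2 * t - A.det) := by
  simp only [trace_fin_three, mul_apply, Fin.sum_univ_three] at h0 hc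
  rw [← hc]
  simp only [det_fin_three, Matrix.sub_apply, Matrix.smul_apply, Matrix.one_apply, smul_eq_mul]
  simp only [Fin.isValue, reduceIte, Fin.reduceEq, mul_one, mul_zero, sub_zero]
  have h22 : A 2 2 = -A 0 0 - A 1 1 := by linear_combination h0
  rw [h22]
  ring

/-- Cayley-Hamilton for trace zero -/
lemma cayley (A : Matrix (Fin 3) (Fin 3) ℝ) (c : ℝ) (h0 : A.trace = 0)
    (hc : (A * A).trace = c) :
    A * A * A = (c / 2) • A + A.det • (1 : Matrix (Fin 3) (Fin 3) ℝ) := by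
  simp only [trace_fin_three, mul_apply, Fin.sum_univ_three] at h0 hc
  rw [← hc]
  have h22 : A 2 2 = -A 0 0 - A 1 1 := by linear_combination h0
  ext i j
  fin_cases i <;> fin_cases j <;>
    simp [det_fin_three, mul_apply, Fin.sum_univ_three, h22] <;> ring

lemma trace_cube (A : Matrix (Fin 3) (Fin 3) ℝ) (h0 : A.trace = 0) :
    (A * A * A).trace = 3 * A.det := by
  rw [cayley A _ h0 rfl]
  simp [trace_add, trace_smul, h0, mul_comm]

lemma prod_sub (A : Matrix (Fin 3) (Fin 3) ℝ) (c l0 l1 l2 : ℝ) (h0 : A.trace = 0)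
    (hc : (A * A).trace = c) (hs : l0 + l1 + l2 = 0) (hq : l0 ^ 2 + l1 ^ 2 + l2 ^ 2 = c)
    (hp : l0 * l1 * l2 = A.det) :
    (A - l0 • (1 : Matrix (Fin 3) (Fin 3) ℝ)) * (A - l1 • (1 : Matrix (Fin 3) (Fin 3) ℝ)) *
      (A - l2 • (1 : Matrix (Fin 3) (Fin 3) ℝ)) = 0 := by
  have h1 : (A - l0 • (1 : Matrix (Fin 3) (Fin 3) ℝ)) *
      (A - l1 • (1 : Matrix (Fin 3) (Fin 3) ℝ)) * (A - l2 • (1 : Matrix (Fin 3) (Fin 3) ℝ))
      = A * A * A - (l0 + l1 + l2) • (A * A) + (l0 * l1 + l0 * l2 + l1 * l2) • A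
        - (l0 * l1 * l2) • (1 : Matrix (Fin 3) (Fin 3) ℝ) := by
    simp only [sub_mul, mul_sub, smul_mul_assoc, mul_smul_comm, mul_one, one_mul, smul_sub,
      smul_smul]
    module
  have h2 : l0 * l1 + l0 * l2 + l1 * l2 = -(c / 2) := by
    have h3 : (l0 + l1 + l2) ^ 2 = 0 := by rw [hs]; norm_num
    nlinarith [h3, hq]
  rw [h1, hs, h2, hp, cayley A c h0 hc]
  module

lemma sym_ineq (M : Matrix (Fin 3) (Fin 3) ℝ) (hM : Mᵀ = M) (h0 : M.trace = 0) (c : ℝ)
    (hc : (M * M).trace = c) : 54 * M.det ^ 2 ≤ c ^ 3 := by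
  have hH : M.IsHermitian := by
    rw [IsHermitian, conjTranspose_eq_transpose_of_trivial]; exact hM
  have hch := hH.charpoly_eq
  have key : ∀ t : ℝ, t ^ 3 - c / 2 * t - M.det
      = (t - hH.eigenvalues 0) * (t - hH.eigenvalues 1) * (t - hH.eigenvalues 2) := by
    intro t
    have h1 := congrArg (Polynomial.eval t) hch
    rw [Matrix.eval_charpoly, Polynomial.eval_prod, Fin.prod_univ_three] at h1
    simp only [Polynomial.eval_sub, Polynomial.eval_X, Polynomial.eval_C] at h1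
    have h2 : (Matrix.scalar (Fin 3) t - M).det = -(M - t • (1 : Matrix (Fin 3) (Fin 3) ℝ)).det := by
      rw [show Matrix.scalar (Fin 3) t - M = -(M - t • (1 : Matrix (Fin 3) (Fin 3) ℝ)) by
        rw [neg_sub, Matrix.scalar_apply, ← Matrix.smul_one_eq_diagonal]]
      rw [det_neg, Fintype.card_fin]
      ring
    rw [h2, det_sub_smul M c t h0 hc, neg_neg] at h1
    simpa using h1
  set a := hH.eigenvalues 0
  set b := hH.eigenvalues 1
  set d := hH.eigenvalues 2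
  have e0 := key 0
  have e1 := key 1
  have e2 := key (-1)
  have hs : a + b + d = 0 := by linarith
  have hq : a * b + b * d + d * a = -(c / 2) := by linarith
  have hp : a * b * d = M.det := by linarith
  have hd : d = -a - b := by linarith
  have hc' : c = 2 * (a ^ 2 + a * b + b ^ 2) := by
    rw [hd] at hq; linarith [hq]
  rw [← hp, hc', hd]
  have : (2 * (a ^ 2 + a * b + b ^ 2)) ^ 3 - 54 * (a * b * (-a - b)) ^ 2
      = 2 * ((a - b) * (2 * a + b) * (a + 2 * b)) ^ 2 := by ring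
  nlinarith [sq_nonneg ((a - b) * (2 * a + b) * (a + 2 * b))]

/-- the same for a matrix selfadjoint with respect to a scalar product -/
lemma selfadj_ineq (g A : Matrix (Fin 3) (Fin 3) ℝ) (hg : g.PosDef) (hs : Aᵀ * g = g * A)
    (h0 : A.trace = 0) (c : ℝ) (hc : (A * A).trace = c) : 54 * A.det ^ 2 ≤ c ^ 3 := by
  open scoped MatrixOrder in
  obtain ⟨B, hB⟩ := CStarAlgebra.nonneg_iff_eq_star_mul_self.mp hg.posSemidef.nonneg
  rw [star_eq_conjTranspose, conjTranspose_eq_transpose_of_trivial] at hB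
  have hdg : g.det ≠ 0 := hg.det_pos.ne'
  have hdB : B.det ≠ 0 := by
    intro h
    apply hdg
    rw [hB, det_mul, h, mul_zero]
  have hu : IsUnit B.det := isUnit_iff_ne_zero.mpr hdB
  have huT : IsUnit Bᵀ.det := by rw [det_transpose]; exact hu
  set M := B * A * B⁻¹ with hM
  have hMt : Mᵀ = M := by
    have h1 : Bᵀ * Mᵀ * B = Bᵀ * M * B := by
      rw [hM]
      simp only [transpose_mul, transpose_nonsing_inv]
      have e1 : Bᵀ * ((Bᵀ)⁻¹ * (Aᵀ * Bᵀ)) * B = Aᵀ * (Bᵀ * B) := by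
        rw [← Matrix.mul_assoc Bᵀ, mul_nonsing_inv _ huT, Matrix.one_mul, Matrix.mul_assoc]
      have e2 : Bᵀ * (B * A * B⁻¹) * B = (Bᵀ * B) * A := by
        simp only [Matrix.mul_assoc]
        rw [nonsing_inv_mul _ hu, Matrix.mul_one]
      rw [e1, e2, ← hB, hs]
    have h2 : (Bᵀ)⁻¹ * (Bᵀ * Mᵀ * B) * B⁻¹ = (Bᵀ)⁻¹ * (Bᵀ * M * B) * B⁻¹ := by rw [h1]
    have e3 : ∀ Z : Matrix (Fin 3) (Fin 3) ℝ, (Bᵀ)⁻¹ * (Bᵀ * Z * B) * B⁻¹ = Z := by
      intro Z
      rw [Matrix.mul_assoc Bᵀ, ← Matrix.mul_assoc (Bᵀ)⁻¹, nonsing_inv_mul _ huT, Matrix.one_mul,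
        Matrix.mul_assoc, mul_nonsing_inv _ hu, Matrix.mul_one]
    rwa [e3, e3] at h2
  have hMd : M.det = A.det := by
    rw [hM, det_mul, det_mul, det_nonsing_inv, Ring.inverse_eq_inv']
    field_simp
  have hM0 : M.trace = 0 := by
    rw [hM, Matrix.trace_mul_comm, ← Matrix.mul_assoc, nonsing_inv_mul _ hu, Matrix.one_mul, h0]
  have hM2 : (M * M).trace = c := by
    have : M * M = B * (A * A) * B⁻¹ := by
      rw [hM]
      simp only [Matrix.mul_assoc]
      rw [← Matrix.mul_assoc B⁻¹ B, nonsing_inv_mul _ hu, Matrix.one_mul]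
    rw [this, Matrix.trace_mul_comm, ← Matrix.mul_assoc, nonsing_inv_mul _ hu, Matrix.one_mul, hc]
  rw [← hMd]
  exact sym_ineq M hMt hM0 c hM2

/-- the eigenvalues by cosines -/
lemma cos_roots (a w : ℝ) (hw1 : -1 ≤ w) (hw2 : w ≤ 1) :
    2 * a * Real.cos (Real.arccos w / 3) + 2 * a * Real.cos (Real.arccos w / 3 - 2 * Real.pi / 3)
        + 2 * a * Real.cos (Real.arccos w / 3 + 2 * Real.pi / 3) = 0 ∧
    (2 * a * Real.cos (Real.arccos w / 3)) ^ 2
        + (2 * a * Real.cos (Real.arccos w / 3 - 2 * Real.pi / 3)) ^ 2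
        + (2 * a * Real.cos (Real.arccos w / 3 + 2 * Real.pi / 3)) ^ 2 = 6 * a ^ 2 ∧
    (2 * a * Real.cos (Real.arccos w / 3)) * (2 * a * Real.cos (Real.arccos w / 3 - 2 * Real.pi / 3))
        * (2 * a * Real.cos (Real.arccos w / 3 + 2 * Real.pi / 3)) = 2 * a ^ 3 * w := by
  set θ := Real.arccos w / 3 with hθ
  have hc3 : Real.cos (3 * θ) = w := by
    rw [hθ, show 3 * (Real.arccos w / 3) = Real.arccos w by ring, Real.cos_arccos hw1 hw2]
  rw [Real.cos_three_mul] at hc3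
  have h1 : Real.cos (2 * Real.pi / 3) = -1 / 2 := by
    rw [show 2 * Real.pi / 3 = Real.pi - Real.pi / 3 by ring, Real.cos_pi_sub, Real.cos_pi_div_three]
    norm_num
  have h2 : Real.sin (2 * Real.pi / 3) = Real.sqrt 3 / 2 := by
    rw [show 2 * Real.pi / 3 = Real.pi - Real.pi / 3 by ring, Real.sin_pi_sub,
      Real.sin_pi_div_three]
  rw [Real.cos_sub, Real.cos_add, h1, h2]
  have h3 : Real.sqrt 3 ^ 2 = 3 := Real.sq_sqrt (by norm_num)
  have h4 : Real.sin θ ^ 2 = 1 - Real.cos θ ^ 2 := by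
    have := Real.sin_sq_add_cos_sq θ
    linarith
  set C := Real.cos θ
  set s := Real.sin θ
  set r := Real.sqrt 3
  refine ⟨by ring, ?_, ?_⟩
  · have : (2 * a * C) ^ 2 + (2 * a * (C * (-1 / 2) + s * (r / 2))) ^ 2
        + (2 * a * (C * (-1 / 2) - s * (r / 2))) ^ 2
        = 4 * a ^ 2 * C ^ 2 + 2 * a ^ 2 * C ^ 2 + 2 * a ^ 2 * s ^ 2 * r ^ 2 := by ring
    rw [this, h3, h4]; ring
  · have : (2 * a * C) * (2 * a * (C * (-1 / 2) + s * (r / 2)))
        * (2 * a * (C * (-1 / 2) - s * (r / 2)))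
        = 2 * a ^ 3 * C * (C ^ 2 - s ^ 2 * r ^ 2) := by ring
    rw [this, h3, h4, ← hc3]; ring

lemma cos_order (w : ℝ) (hw1 : -1 < w) (hw2 : w < 1) :
    Real.cos (Real.arccos w / 3 + 2 * Real.pi / 3) < Real.cos (Real.arccos w / 3 - 2 * Real.pi / 3) ∧
    Real.cos (Real.arccos w / 3 - 2 * Real.pi / 3) < Real.cos (Real.arccos w / 3) := by
  have h1 : 0 < Real.arccos w := Real.arccos_pos.mpr hw2
  have h2 : Real.arccos w < Real.pi := by
    rcases lt_or_eq_of_le (Real.arccos_le_pi w) with h | h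
    · exact h
    · exfalso
      rw [Real.arccos_eq_pi] at h
      linarith
  set θ := Real.arccos w / 3 with hθ
  have hp := Real.pi_pos
  have h3 : Real.cos (θ - 2 * Real.pi / 3) = Real.cos (2 * Real.pi / 3 - θ) := by
    rw [← Real.cos_neg]; congr 1; ring
  rw [h3]
  constructor
  · apply Real.cos_lt_cos_of_nonneg_of_le_pi <;> linarith
  · apply Real.cos_lt_cos_of_nonneg_of_le_pi <;> linarith

end Pool.Agent.Y167.BR
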