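import Mathlib
import Pool.Agent.Y167.BR.Alg
import Pool.Agent.Y493.Br.StmG1

set_option autoImplicit false

/-!
Job BR-G1a: smooth distinct eigenvalues of the shape operator near a point where the trace of
the cube has nonzero derivative.
-/

namespace Pool.Agent.Y167.BR

open Matrix Y493.Br

/-- the coordinate derivative -/
noncomputable def D (f : E3 → E5) (i : Fin 3) (x : E3) : E5 :=
  fderiv ℝ f x (EuclideanSpace.single i (1 : ℝ))

/-- the first fundamental form -/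
noncomputable def gm (f : E3 → E5) (x : E3) : Matrix (Fin 3) (Fin 3) ℝ :=
  Matrix.of (fun (i : Fin 3) (j : Fin 3) => inner ℝ (D f i x) (D f j x))

/-- the second fundamental form -/
noncomputable def hm (f ν : E3 → E5) (x : E3) : Matrix (Fin 3) (Fin 3) ℝ :=
  Matrix.of (fun (i : Fin 3) (j : Fin 3) => -inner ℝ (D f i x) (D ν j x))

lemma smD {U : Set E3} (hU : IsOpen U) {f : E3 → E5}
    (hf : ContDiffOn ℝ ((⊤ : ℕ∞) : WithTop ℕ∞) f U) (i : Fin 3) :
    ContDiffOn ℝ ((⊤ : ℕ∞) : WithTop ℕ∞) (D f i) U := by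
  have h : ContDiffOn ℝ ((⊤ : ℕ∞) : WithTop ℕ∞) (fderiv ℝ f) U :=
    hf.fderiv_of_isOpen hU (by norm_cast)
  exact h.clm_apply contDiffOn_const

lemma sm_gm {U : Set E3} (hU : IsOpen U) {f : E3 → E5}
    (hf : ContDiffOn ℝ ((⊤ : ℕ∞) : WithTop ℕ∞) f U) (i j : Fin 3) :
    ContDiffOn ℝ ((⊤ : ℕ∞) : WithTop ℕ∞) (fun x => gm f x i j) U :=
  (smD hU hf i).inner ℝ (smD hU hf j)

lemma sm_hm {U : Set E3} (hU : IsOpen U) {f ν : E3 → E5}
    (hf : ContDiffOn ℝ ((⊤ : ℕ∞) : WithTop ℕ∞) f U)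
    (hν : ContDiffOn ℝ ((⊤ : ℕ∞) : WithTop ℕ∞) ν U) (i j : Fin 3) :
    ContDiffOn ℝ ((⊤ : ℕ∞) : WithTop ℕ∞) (fun x => hm f ν x i j) U :=
  ((smD hU hf i).inner ℝ (smD hU hν j)).neg

lemma gm_posDef {f : E3 → E5} {x : E3} (hinj : Function.Injective (fderiv ℝ f x)) :
    (gm f x).PosDef := by
  have h : LinearIndependent ℝ (fun i : Fin 3 => D f i x) := by
    have h1 : LinearIndependent ℝ (fun i : Fin 3 => (EuclideanSpace.single i (1 : ℝ) : E3)) := by
      have h3 := (EuclideanSpace.basisFun (Fin 3) ℝ).toBasis.linearIndependent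
      have h2 : (fun i : Fin 3 => (EuclideanSpace.single i (1 : ℝ) : E3))
          = ⇑(EuclideanSpace.basisFun (Fin 3) ℝ).toBasis := by
        ext i
        simp
      rw [h2]
      exact h3
    exact h1.map' (fderiv ℝ f x).toLinearMap (LinearMap.ker_eq_bot.mpr hinj)
  exact Matrix.posDef_gram_of_linearIndependent h

lemma gm_symm (f : E3 → E5) (x : E3) : (gm f x)ᵀ = gm f x := by
  ext i j
  simp only [gm, transpose_apply, of_apply]
  exact real_inner_comm _ _

lemma hm_symm {U : Set E3} (hU : IsOpen U) {f ν : E3 → E5}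
    (hf : ContDiffOn ℝ ((⊤ : ℕ∞) : WithTop ℕ∞) f U)
    (hν : ContDiffOn ℝ ((⊤ : ℕ∞) : WithTop ℕ∞) ν U)
    (hp : ∀ x ∈ U, ∀ i, inner ℝ (D f i x) (ν x) = (0 : ℝ)) {x : E3} (hx : x ∈ U) :
    (hm f ν x)ᵀ = hm f ν x := by
  have hUx : U ∈ nhds x := hU.mem_nhds hx
  have key : ∀ i j : Fin 3, hm f ν x i j
      = inner ℝ (fderiv ℝ (fderiv ℝ f) x (EuclideanSpace.single j (1 : ℝ))
          (EuclideanSpace.single i (1 : ℝ))) (ν x) := by
    intro i j
    have hD : DifferentiableAt ℝ (D f i) x :=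
      ((smD hU hf i).contDiffAt hUx).differentiableAt (by simp)
    have hν' : DifferentiableAt ℝ ν x := (hν.contDiffAt hUx).differentiableAt (by simp)
    have h0 : fderiv ℝ (fun y => inner ℝ (D f i y) (ν y)) x (EuclideanSpace.single j (1 : ℝ))
        = (0 : ℝ) := by
      have : (fun y => inner ℝ (D f i y) (ν y)) =ᶠ[nhds x] fun _ => (0 : ℝ) := by
        filter_upwards [hUx] with y hy using hp y hy i
      rw [this.fderiv_eq]
      simp
    rw [fderiv_inner_apply ℝ hD hν'] at h0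
    have hf2 : DifferentiableAt ℝ (fderiv ℝ f) x := by
      have h : ContDiffOn ℝ ((⊤ : ℕ∞) : WithTop ℕ∞) (fderiv ℝ f) U :=
        hf.fderiv_of_isOpen hU (by norm_cast)
      exact (h.contDiffAt hUx).differentiableAt (by simp)
    have h1 : fderiv ℝ (D f i) x (EuclideanSpace.single j (1 : ℝ))
        = fderiv ℝ (fderiv ℝ f) x (EuclideanSpace.single j (1 : ℝ))
          (EuclideanSpace.single i (1 : ℝ)) := by
      have : HasFDerivAt (D f i) ((fderiv ℝ (fderiv ℝ f) x).flip (EuclideanSpace.single i (1 : ℝ)))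
          x := by
        exact (hf2.hasFDerivAt.clm_apply
          (hasFDerivAt_const (EuclideanSpace.single i (1 : ℝ)) x)).congr_fderiv (by simp)
      rw [this.fderiv]
      rfl
    rw [h1] at h0
    simp only [hm, of_apply]
    simp only [D] at h0 ⊢
    linarith
  have hsym : IsSymmSndFDerivAt ℝ f x :=
    (hf.contDiffAt hUx).isSymmSndFDerivAt (by
      rw [minSmoothness_of_isRCLikeNormedField]; norm_cast)
  ext i j
  rw [transpose_apply, key j i, key i j, hsym]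

/-- inverse of a matrix of smooth functions -/
lemma sm_inv {U : Set E3} {g : E3 → Matrix (Fin 3) (Fin 3) ℝ}
    (hg : ∀ i j, ContDiffOn ℝ ((⊤ : ℕ∞) : WithTop ℕ∞) (fun x => g x i j) U)
    (hd : ∀ x ∈ U, (g x).det ≠ 0) (i j : Fin 3) :
    ContDiffOn ℝ ((⊤ : ℕ∞) : WithTop ℕ∞) (fun x => (g x)⁻¹ i j) U := by
  have hdet : ContDiffOn ℝ ((⊤ : ℕ∞) : WithTop ℕ∞) (fun x => (g x).det) U := by
    simp only [det_fin_three]
    fun_prop
  have hadj : ContDiffOn ℝ ((⊤ : ℕ∞) : WithTop ℕ∞) (fun x => (g x).adjugate i j) U := by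
    simp only [adjugate_fin_three]
    fin_cases i <;> fin_cases j <;> simp <;> fun_prop
  have h : ∀ x ∈ U, (g x)⁻¹ i j = ((g x).det)⁻¹ * (g x).adjugate i j := by
    intro x _
    rw [Matrix.inv_def, Ring.inverse_eq_inv', Matrix.smul_apply, smul_eq_mul]
  exact ((hdet.inv hd).mul hadj).congr h

theorem g1a : StG1a := by
  intro U f ν S c H x0 hx0 hd
  have hU := H.isOpen
  have hSx : ∀ x ∈ U, S x = (gm f x)⁻¹ * hm f ν x := H.shape
  have hpd : ∀ x ∈ U, (gm f x).PosDef := fun x hx => gm_posDef (H.inj x hx)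
  have hdg : ∀ x ∈ U, (gm f x).det ≠ 0 := fun x hx => (hpd x hx).det_pos.ne'
  have hS : ∀ i j, ContDiffOn ℝ ((⊤ : ℕ∞) : WithTop ℕ∞) (fun x => S x i j) U := by
    intro i j
    have h : ContDiffOn ℝ ((⊤ : ℕ∞) : WithTop ℕ∞)
        (fun x => ∑ k, (gm f x)⁻¹ i k * hm f ν x k j) U :=
      ContDiffOn.sum fun k _ => (sm_inv (sm_gm hU H.smf) hdg i k).mul (sm_hm hU H.smf H.smν k j)
    exact h.congr (fun x hx => by rw [hSx x hx, Matrix.mul_apply])
  have hsymm : ∀ x ∈ U, (hm f ν x)ᵀ = hm f ν x := fun x hx =>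
    hm_symm hU H.smf H.smν (fun y hy i => (H.normν y hy).2.2 i) hx
  have hself : ∀ x ∈ U, (S x)ᵀ * gm f x = gm f x * S x := by
    intro x hx
    have hu : IsUnit (gm f x).det := isUnit_iff_ne_zero.mpr (hdg x hx)
    rw [hSx x hx, transpose_mul, hsymm x hx, transpose_nonsing_inv, gm_symm, Matrix.mul_assoc,
      nonsing_inv_mul _ hu, Matrix.mul_one, ← Matrix.mul_assoc, mul_nonsing_inv _ hu,
      Matrix.one_mul]
  have hineq : ∀ x ∈ U, 54 * (S x).det ^ 2 ≤ c ^ 3 := fun x hx =>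
    selfadj_ineq (gm f x) (S x) (hpd x hx) (hself x hx) (H.tr1 x hx) c (H.tr2 x hx)
  obtain ⟨φ, hφ⟩ : ∃ φ : E3 → ℝ, φ = fun x => (S x).det := ⟨_, rfl⟩
  have hφx : ∀ x, (S x).det = φ x := fun x => by rw [hφ]
  have hφs : ContDiffOn ℝ ((⊤ : ℕ∞) : WithTop ℕ∞) φ U := by
    rw [hφ]
    simp only [det_fin_three]
    fun_prop
  have hT : ∀ x ∈ U, trace (S x * S x * S x) = 3 * φ x := by
    intro x hx
    rw [trace_cube _ (H.tr1 x hx), hφx]
  have hφd : DifferentiableAt ℝ φ x0 :=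
    (hφs.contDiffAt (hU.mem_nhds hx0)).differentiableAt (by simp)
  have hdφ : fderiv ℝ φ x0 ≠ 0 := by
    intro h
    apply hd
    have e : (fun x => trace (S x * S x * S x)) =ᶠ[nhds x0] fun x => 3 * φ x := by
      filter_upwards [hU.mem_nhds hx0] with x hx using hT x hx
    rw [e.fderiv_eq, fderiv_const_mul hφd, h, smul_zero]
  simp only [hφx] at hineq
  have hstrict : 54 * φ x0 ^ 2 < c ^ 3 := by
    rcases lt_or_eq_of_le (hineq x0 hx0) with h | h
    · exact h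
    · exfalso
      have hmax : IsLocalMax (fun x => φ x ^ 2) x0 := by
        filter_upwards [hU.mem_nhds hx0] with x hx
        have := hineq x hx
        linarith
      have h1 := hmax.fderiv_eq_zero
      have h2 : HasFDerivAt (fun x => φ x ^ 2) ((2 * φ x0) • fderiv ℝ φ x0) x0 := by
        have := hφd.hasFDerivAt.pow 2
        simpa using this
      rw [h2.fderiv] at h1
      have h3 : φ x0 = 0 := by
        rcases smul_eq_zero.mp h1 with h4 | h4
        · linarith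
        · exact absurd h4 hdφ
      have hc3 : c ^ 3 = 0 := by rw [← h, h3]; norm_num
      apply hdφ
      have e : φ =ᶠ[nhds x0] fun _ => (0 : ℝ) := by
        filter_upwards [hU.mem_nhds hx0] with x hx
        have := hineq x hx
        rw [hc3] at this
        have h5 : φ x ^ 2 = 0 := le_antisymm (by linarith) (sq_nonneg _)
        exact pow_eq_zero_iff (two_ne_zero) |>.mp h5
      rw [e.fderiv_eq]
      simp
  have hc : 0 < c := by
    by_contra hcn
    have : c ^ 3 ≤ 0 := by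
      have h1 : 0 ≤ (-c) ^ 3 := pow_nonneg (by linarith) 3
      have h2 : (-c) ^ 3 = -c ^ 3 := by ring
      linarith
    have h3 := sq_nonneg (φ x0)
    linarith
  obtain ⟨a, ha⟩ : ∃ a : ℝ, a = Real.sqrt (c / 6) := ⟨_, rfl⟩
  have ha0 : 0 < a := by rw [ha]; exact Real.sqrt_pos.mpr (by positivity)
  have ha2 : a ^ 2 = c / 6 := by rw [ha]; exact Real.sq_sqrt (by positivity)
  obtain ⟨w, hw⟩ : ∃ w : E3 → ℝ, w = fun x => φ x / (2 * a ^ 3) := ⟨_, rfl⟩
  have hwφ : ∀ x, 2 * a ^ 3 * w x = φ x := by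
    intro x
    rw [hw]
    field_simp
  obtain ⟨V, hV⟩ : ∃ V : Set E3, V = U ∩ φ ⁻¹' {t | 54 * t ^ 2 < c ^ 3} := ⟨_, rfl⟩
  have hVo : IsOpen V := by
    rw [hV]
    apply hφs.continuousOn.isOpen_inter_preimage hU
    exact isOpen_lt (by fun_prop) continuous_const
  have hVU : V ⊆ U := by rw [hV]; exact Set.inter_subset_left
  have hw1 : ∀ x ∈ V, -1 < w x ∧ w x < 1 := by
    intro x hx
    rw [hV] at hx
    have h1 : 54 * φ x ^ 2 < c ^ 3 := hx.2
    have h2 : φ x ^ 2 = (4 * (c / 6) ^ 3) * w x ^ 2 := by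
      rw [← hwφ x, ← ha2]; ring
    rw [h2] at h1
    have h3 : w x ^ 2 < 1 := by
      by_contra h4
      have h5 : c ^ 3 * 1 ≤ c ^ 3 * w x ^ 2 :=
        mul_le_mul_of_nonneg_left (not_lt.mp h4) (by positivity)
      nlinarith
    exact abs_lt.mp ((sq_lt_one_iff_abs_lt_one _).mp h3)
  have hws : ContDiffOn ℝ ((⊤ : ℕ∞) : WithTop ℕ∞) w V := by
    rw [hw]
    exact (hφs.mono hVU).div_const _
  have hθ : ContDiffOn ℝ ((⊤ : ℕ∞) : WithTop ℕ∞) (fun x => Real.arccos (w x)) V := by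
    intro x hx
    have h1 : ContDiffAt ℝ ((⊤ : ℕ∞) : WithTop ℕ∞) Real.arccos (w x) :=
      Real.contDiffAt_arccos (hw1 x hx).1.ne' (hw1 x hx).2.ne
    exact h1.comp_contDiffWithinAt x (hws x hx)
  have hroots := fun x (hx : x ∈ V) => cos_roots a (w x) (hw1 x hx).1.le (hw1 x hx).2.le
  have hord := fun x (hx : x ∈ V) => cos_order (w x) (hw1 x hx).1 (hw1 x hx).2
  obtain ⟨l0, hl0⟩ : ∃ l : E3 → ℝ, l = fun x => 2 * a * Real.cos (Real.arccos (w x) / 3) :=
    ⟨_, rfl⟩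
  obtain ⟨l1, hl1⟩ : ∃ l : E3 → ℝ,
    l = fun x => 2 * a * Real.cos (Real.arccos (w x) / 3 - 2 * Real.pi / 3) := ⟨_, rfl⟩
  obtain ⟨l2, hl2⟩ : ∃ l : E3 → ℝ,
    l = fun x => 2 * a * Real.cos (Real.arccos (w x) / 3 + 2 * Real.pi / 3) := ⟨_, rfl⟩
  have s0 : ContDiffOn ℝ ((⊤ : ℕ∞) : WithTop ℕ∞) l0 V := by
    rw [hl0]
    exact contDiffOn_const.mul (Real.contDiff_cos.comp_contDiffOn (hθ.div_const 3))
  have s1 : ContDiffOn ℝ ((⊤ : ℕ∞) : WithTop ℕ∞) l1 V := by
    rw [hl1]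
    exact contDiffOn_const.mul
      (Real.contDiff_cos.comp_contDiffOn ((hθ.div_const 3).sub contDiffOn_const))
  have s2 : ContDiffOn ℝ ((⊤ : ℕ∞) : WithTop ℕ∞) l2 V := by
    rw [hl2]
    exact contDiffOn_const.mul
      (Real.contDiff_cos.comp_contDiffOn ((hθ.div_const 3).add contDiffOn_const))
  have hsum : ∀ x ∈ V, l0 x + l1 x + l2 x = 0 := by
    intro x hx
    rw [hl0, hl1, hl2]
    exact (hroots x hx).1
  have hsq : ∀ x ∈ V, l0 x ^ 2 + l1 x ^ 2 + l2 x ^ 2 = c := by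
    intro x hx
    rw [hl0, hl1, hl2]
    have := (hroots x hx).2.1
    rw [ha2] at this
    linarith
  have hprod : ∀ x ∈ V, l0 x * l1 x * l2 x = φ x := by
    intro x hx
    rw [hl0, hl1, hl2, ← hwφ x]
    exact (hroots x hx).2.2
  have hroot : ∀ x ∈ V, ∀ t, t = l0 x ∨ t = l1 x ∨ t = l2 x → t ^ 3 - c / 2 * t - φ x = 0 := by
    intro x hx t ht
    have e1 := hsum x hx
    have e2 := hsq x hx
    have e3 := hprod x hx
    have e4 : l2 x = -l0 x - l1 x := by linarith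
    rw [e4] at e2 e3
    rw [← e2, ← e3]
    rcases ht with h | h | h
    · rw [h]; ring
    · rw [h]; ring
    · rw [h, e4]; ring
  refine ⟨V, ![l0, l1, l2], hVo, ?_, hVU, fun i j => (hS i j).mono hVU, ?_, ?_, ?_, ?_, ?_, ?_,
    ?_, ?_⟩
  · rw [hV]; exact ⟨hx0, hstrict⟩
  · intro i
    fin_cases i
    · exact s0
    · exact s1
    · exact s2
  · intro x hx
    change l2 x < l1 x
    rw [hl1, hl2]
    exact mul_lt_mul_of_pos_left (hord x hx).1 (by positivity)
  · intro x hx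
    change l1 x < l0 x
    rw [hl1, hl0]
    exact mul_lt_mul_of_pos_left (hord x hx).2 (by positivity)
  · intro x hx
    exact hsum x hx
  · intro x hx
    exact hsq x hx
  · intro x hx i
    have hxU := hVU hx
    rw [det_sub_smul (S x) c _ (H.tr1 x hxU) (H.tr2 x hxU), hφx, neg_eq_zero]
    apply hroot x hx
    fin_cases i <;> simp
  · intro x hx
    have hxU := hVU hx
    exact prod_sub (S x) c (l0 x) (l1 x) (l2 x) (H.tr1 x hxU) (H.tr2 x hxU) (hsum x hx) (hsq x hx)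
      (by rw [hprod x hx, hφx])
  · intro x hx
    have hxU := hVU hx
    rw [hT x hxU]
    change 3 * φ x = l0 x ^ 3 + l1 x ^ 3 + l2 x ^ 3
    have e1 := hsum x hx
    have e3 := hprod x hx
    have e4 : l2 x = -l0 x - l1 x := by linarith
    rw [← e3, e4]
    ring

end Pool.Agent.Y167.BR
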