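import Mathlib
import Pool.Agent.Y493.Br.Stm2

set_option autoImplicit false

/-!
The normalised geometric system: the differential algebra of a minimal hypersurface after
division of the derivations by half of the difference of the extreme principal curvatures.
-/

namespace Pool.Agent.Y167.BR

open Y493.Br

/-- The normalised geometric system. -/
structure NS (A : Type) [CommRing A] where
  e : Fin 3 → Derivation ℤ A A
  r : A
  K : A
  u : A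
  a1 : A
  a3 : A
  h : A
  t : Fin 3 → A
  g : Fin 3 → Fin 3 → Fin 3 → A
  la : Fin 3 → A
  h2 : 2 * h = 1
  ha1 : a1 * (1 + r) = 1
  ha3 : a3 * (1 - r) = 1
  er : ∀ l, e l r = -(3 + r ^ 2) * t l
  la0 : 3 * la 0 = 3 - r
  la1 : 3 * la 1 = 2 * r
  la2 : 3 * la 2 = -(3 + r)
  g001 : g 0 0 1 = (1 + r) * a3 * t 1
  g101 : g 1 0 1 = -(2 * a3 * t 0)
  g201 : g 2 0 1 = a3 * u
  g012 : g 0 1 2 = a1 * u
  g112 : g 1 1 2 = -(2 * a1 * t 2)
  g212 : g 2 1 2 = (1 - r) * a1 * t 1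
  g020 : g 0 2 0 = -((1 + r) * h * t 2)
  g120 : g 1 2 0 = -(h * u)
  g220 : g 2 2 0 = -((1 - r) * h * t 0)
  anti : ∀ i j k, g i k j = -g i j k
  diag : ∀ i j, g i j j = 0
  tsymm : ∀ i j, e i (t j) - e j (t i) = ∑ k, (g i j k - g j i k) * t k
  tors : ∀ i j (x : A), e i (e j x) - e j (e i x)
    = ∑ k, (g i j k - g j i k) * e k x - r * t i * e j x + r * t j * e i x
  gauss : ∀ i j k l,
    e i (g j k l) - e j (g i k l) + r * t i * g j k l - r * t j * g i k l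
      + ∑ m, (g j k m * g i m l - g i k m * g j m l)
      - ∑ m, (g i j m - g j i m) * g m k l
      = (K + la i * la j) *
        ((if j = k ∧ i = l then 1 else 0) - (if i = k ∧ j = l then 1 else 0))

namespace NS

variable {A : Type} [CommRing A] (N : NS A)

/-- second covariant derivative of the trace of the cube -/
def ta (k l : Fin 3) : A := N.e l (N.t k) - ∑ m, N.g l k m * N.t m + N.r * N.t l * N.t k

lemma ta_symm (i j : Fin 3) : N.ta i j = N.ta j i := by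
  have h := N.tsymm i j
  simp only [sub_mul, Finset.sum_sub_distrib] at h
  simp only [ta]
  linear_combination -h

lemma g010 : N.g 0 1 0 = -((1 + N.r) * N.a3 * N.t 1) := by rw [N.anti 0 0 1, N.g001]
lemma g110 : N.g 1 1 0 = 2 * N.a3 * N.t 0 := by rw [N.anti 1 0 1, N.g101, neg_neg]
lemma g210 : N.g 2 1 0 = -(N.a3 * N.u) := by rw [N.anti 2 0 1, N.g201]
lemma g021 : N.g 0 2 1 = -(N.a1 * N.u) := by rw [N.anti 0 1 2, N.g012]
lemma g121 : N.g 1 2 1 = 2 * N.a1 * N.t 2 := by rw [N.anti 1 1 2, N.g112, neg_neg]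
lemma g221 : N.g 2 2 1 = -((1 - N.r) * N.a1 * N.t 1) := by rw [N.anti 2 1 2, N.g212]
lemma g002 : N.g 0 0 2 = (1 + N.r) * N.h * N.t 2 := by rw [N.anti 0 2 0, N.g020, neg_neg]
lemma g102 : N.g 1 0 2 = N.h * N.u := by rw [N.anti 1 2 0, N.g120, neg_neg]
lemma g202 : N.g 2 0 2 = (1 - N.r) * N.h * N.t 0 := by rw [N.anti 2 2 0, N.g220, neg_neg]

lemma ea1 (l : Fin 3) : N.e l N.a1 = N.a1 ^ 2 * (3 + N.r ^ 2) * N.t l := by
  rw [(N.e l).leibniz_of_mul_eq_one N.ha1, map_add, N.er, Derivation.map_one_eq_zero, smul_eq_mul]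
  ring

lemma ea3 (l : Fin 3) : N.e l N.a3 = -(N.a3 ^ 2 * (3 + N.r ^ 2) * N.t l) := by
  rw [(N.e l).leibniz_of_mul_eq_one N.ha3, map_sub, N.er, Derivation.map_one_eq_zero, smul_eq_mul]
  ring

lemma e_two (l : Fin 3) : N.e l 2 = 0 := by
  have := (N.e l).map_natCast 2
  simpa using this

lemma eh (l : Fin 3) : N.e l N.h = 0 := by
  rw [(N.e l).leibniz_of_mul_eq_one (a := N.h) (b := 2) (by rw [mul_comm]; exact N.h2), e_two]
  simp


lemma et10 : 2 * (1 - N.r) * N.e 1 (N.t 0) = (1 - N.r) * N.u * N.t 2 + (-4 - 2 * N.r + 2 * N.r ^ 2) * N.t 0 * N.t 1 + (2 - 2 * N.r) * N.ta 0 1 := by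
  simp only [ta, Fin.sum_univ_three, N.diag, N.g102, N.g101]
  have := N.h2
  have := N.ha3
  grind

lemma et01 : (1 + N.r) * (1 - N.r) * N.e 0 (N.t 1) = (1 - N.r) * N.u * N.t 2 + (-1 - 3 * N.r - N.r ^ 2 + N.r ^ 3) * N.t 0 * N.t 1 + (1 - N.r ^ 2) * N.ta 1 0 := by
  simp only [ta, Fin.sum_univ_three, N.diag, N.g010, N.g012]
  have := N.ha1
  have := N.ha3
  grind

lemma et20 : 2 * (1 - N.r) * N.e 2 (N.t 0) = 2 * N.u * N.t 1 + (1 - 4 * N.r + 3 * N.r ^ 2) * N.t 0 * N.t 2 + (2 - 2 * N.r) * N.ta 0 2 := by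
  simp only [ta, Fin.sum_univ_three, N.diag, N.g201, N.g202]
  have := N.h2
  have := N.ha3
  grind

lemma et11 : (1 + N.r) * (1 - N.r) * N.e 1 (N.t 1) = (2 + 2 * N.r) * N.t 0 ^ 2 + (-N.r + N.r ^ 3) * N.t 1 ^ 2 + (-2 + 2 * N.r) * N.t 2 ^ 2 + (1 - N.r ^ 2) * N.ta 1 1 := by
  simp only [ta, Fin.sum_univ_three, N.diag, N.g110, N.g112]
  have := N.ha1
  have := N.ha3
  grind

lemma et21 : (1 + N.r) * (1 - N.r) * N.e 2 (N.t 1) = (-1 - N.r) * N.u * N.t 0 + (1 - 3 * N.r + N.r ^ 2 + N.r ^ 3) * N.t 1 * N.t 2 + (1 - N.r ^ 2) * N.ta 1 2 := by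
  simp only [ta, Fin.sum_univ_three, N.diag, N.g210, N.g212]
  have := N.ha1
  have := N.ha3
  grind

lemma et02 : 2 * (1 + N.r) * N.e 0 (N.t 2) = (-2) * N.u * N.t 1 + (-1 - 4 * N.r - 3 * N.r ^ 2) * N.t 0 * N.t 2 + (2 + 2 * N.r) * N.ta 2 0 := by
  simp only [ta, Fin.sum_univ_three, N.diag, N.g020, N.g021]
  have := N.h2
  have := N.ha1
  grind

lemma et12 : 2 * (1 + N.r) * N.e 1 (N.t 2) = (-1 - N.r) * N.u * N.t 0 + (4 - 2 * N.r - 2 * N.r ^ 2) * N.t 1 * N.t 2 + (2 + 2 * N.r) * N.ta 2 1 := by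
  simp only [ta, Fin.sum_univ_three, N.diag, N.g120, N.g121]
  have := N.h2
  have := N.ha1
  grind

lemma tors01 (x : A) : 2 * (1 + N.r) * (1 - N.r) * (N.e 0 (N.e 1 x) - N.e 1 (N.e 0 x)) = ((-2 - 2 * N.r - 2 * N.r ^ 2 - 2 * N.r ^ 3) * N.t 1) * N.e 0 x + ((4 + 2 * N.r + 2 * N.r ^ 3) * N.t 0) * N.e 1 x + ((1 - 2 * N.r + N.r ^ 2) * N.u) * N.e 2 x := by
  rw [N.tors]
  simp only [Fin.sum_univ_three, N.diag, N.g010, N.g012, N.g101, N.g102]
  have := N.h2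
  have := N.ha1
  have := N.ha3
  grind

lemma tors12 (x : A) : 2 * (1 + N.r) * (1 - N.r) * (N.e 1 (N.e 2 x) - N.e 2 (N.e 1 x)) = ((1 + 2 * N.r + N.r ^ 2) * N.u) * N.e 0 x + ((4 - 2 * N.r - 2 * N.r ^ 3) * N.t 2) * N.e 1 x + ((-2 + 2 * N.r - 2 * N.r ^ 2 + 2 * N.r ^ 3) * N.t 1) * N.e 2 x := by
  rw [N.tors]
  simp only [Fin.sum_univ_three, N.diag, N.g120, N.g121, N.g210, N.g212]
  have := N.h2
  have := N.ha1
  have := N.ha3
  grind

lemma tors20 (x : A) : 2 * (1 + N.r) * (1 - N.r) * (N.e 2 (N.e 0 x) - N.e 0 (N.e 2 x)) = ((1 - N.r - N.r ^ 2 + N.r ^ 3) * N.t 2) * N.e 0 x + (4 * N.u) * N.e 1 x + ((1 + N.r - N.r ^ 2 - N.r ^ 3) * N.t 0) * N.e 2 x := by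
  rw [N.tors]
  simp only [Fin.sum_univ_three, N.diag, N.g201, N.g202, N.g020, N.g021]
  have := N.h2
  have := N.ha1
  have := N.ha3
  grind

end NS

end Pool.Agent.Y167.BR
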