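import Mathlib
import Pool.Agent.Y167.BR.NSys

set_option autoImplicit false

/-!
The Gauss equations of the normalised geometric system.
-/

namespace Pool.Agent.Y167.BR

namespace NS

variable {A : Type} [CommRing A] (N : NS A)

lemma e_g110 (l : Fin 3) : N.e l (N.g 1 1 0)
    = 2 * N.a3 * N.e l (N.t 0) - 2 * N.a3 ^ 2 * (3 + N.r ^ 2) * N.t l * N.t 0 := by
  rw [N.g110, mul_assoc, Derivation.leibniz, Derivation.leibniz, N.ea3, N.e_two]
  simp only [smul_eq_mul]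
  ring

lemma e_g010 (l : Fin 3) : N.e l (N.g 0 1 0)
    = -((1 + N.r) * N.a3 * N.e l (N.t 1)) + (1 + N.r) * N.a3 ^ 2 * (3 + N.r ^ 2) * N.t l * N.t 1
      + (3 + N.r ^ 2) * N.t l * N.a3 * N.t 1 := by
  rw [N.g010, map_neg, mul_assoc, Derivation.leibniz, Derivation.leibniz, N.ea3, map_add, N.er,
    Derivation.map_one_eq_zero]
  simp only [smul_eq_mul]
  ring

lemma e_g221 (l : Fin 3) : N.e l (N.g 2 2 1)
    = -((1 - N.r) * N.a1 * N.e l (N.t 1)) - (1 - N.r) * N.a1 ^ 2 * (3 + N.r ^ 2) * N.t l * N.t 1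
      - (3 + N.r ^ 2) * N.t l * N.a1 * N.t 1 := by
  rw [N.g221, map_neg, mul_assoc, Derivation.leibniz, Derivation.leibniz, N.ea1, map_sub, N.er,
    Derivation.map_one_eq_zero]
  simp only [smul_eq_mul]
  ring

lemma e_g121 (l : Fin 3) : N.e l (N.g 1 2 1)
    = 2 * N.a1 * N.e l (N.t 2) + 2 * N.a1 ^ 2 * (3 + N.r ^ 2) * N.t l * N.t 2 := by
  rw [N.g121, mul_assoc, Derivation.leibniz, Derivation.leibniz, N.ea1, N.e_two]
  simp only [smul_eq_mul]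
  ring

lemma e_g002 (l : Fin 3) : N.e l (N.g 0 0 2)
    = (1 + N.r) * N.h * N.e l (N.t 2) - (3 + N.r ^ 2) * N.t l * N.h * N.t 2 := by
  rw [N.g002, mul_assoc, Derivation.leibniz, Derivation.leibniz, N.eh, map_add, N.er,
    Derivation.map_one_eq_zero]
  simp only [smul_eq_mul]
  ring

lemma e_g202 (l : Fin 3) : N.e l (N.g 2 0 2)
    = (1 - N.r) * N.h * N.e l (N.t 0) + (3 + N.r ^ 2) * N.t l * N.h * N.t 0 := by
  rw [N.g202, mul_assoc, Derivation.leibniz, Derivation.leibniz, N.eh, map_sub, N.er,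
    Derivation.map_one_eq_zero]
  simp only [smul_eq_mul]
  ring

lemma e_g102 (l : Fin 3) : N.e l (N.g 1 0 2) = N.h * N.e l N.u := by
  rw [N.g102, Derivation.leibniz, N.eh]
  simp only [smul_eq_mul]
  ring

lemma e_g120 (l : Fin 3) : N.e l (N.g 1 2 0) = -(N.h * N.e l N.u) := by
  rw [N.g120, map_neg, Derivation.leibniz, N.eh]
  simp only [smul_eq_mul]
  ring

lemma e_g220 (l : Fin 3) : N.e l (N.g 2 2 0)
    = -((1 - N.r) * N.h * N.e l (N.t 0)) - (3 + N.r ^ 2) * N.t l * N.h * N.t 0 := by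
  rw [N.g220, map_neg, mul_assoc, Derivation.leibniz, Derivation.leibniz, N.eh, map_sub, N.er,
    Derivation.map_one_eq_zero]
  simp only [smul_eq_mul]
  ring

lemma e_g112 (l : Fin 3) : N.e l (N.g 1 1 2)
    = -(2 * N.a1 * N.e l (N.t 2)) - 2 * N.a1 ^ 2 * (3 + N.r ^ 2) * N.t l * N.t 2 := by
  rw [N.g112, map_neg, mul_assoc, Derivation.leibniz, Derivation.leibniz, N.ea1, N.e_two]
  simp only [smul_eq_mul]
  ring

lemma e_g012 (l : Fin 3) : N.e l (N.g 0 1 2)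
    = N.a1 * N.e l N.u + N.a1 ^ 2 * (3 + N.r ^ 2) * N.t l * N.u := by
  rw [N.g012, Derivation.leibniz, N.ea1]
  simp only [smul_eq_mul]
  ring



lemma la01 : 9 * (N.la 0 * N.la 1) = (3 - N.r) * (2 * N.r) := by
  linear_combination (3 * N.la 1) * N.la0 + (3 - N.r) * N.la1

lemma la12 : 9 * (N.la 1 * N.la 2) = (2 * N.r) * (-(3 + N.r)) := by
  linear_combination (3 * N.la 2) * N.la1 + (2 * N.r) * N.la2

lemma la20 : 9 * (N.la 2 * N.la 0) = (-(3 + N.r)) * (3 - N.r) := by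
  linear_combination (3 * N.la 0) * N.la2 + (-(3 + N.r)) * N.la0

/-- first sectional curvature -/
lemma et00 : 18 * (1 + N.r) * (1 - N.r) * N.e 0 (N.t 0) = (9 - 9 * N.r - 9 * N.r ^ 2 + 9 * N.r ^ 3) * N.K + (-9 + 18 * N.r - 9 * N.r ^ 2) * N.u ^ 2 + (72 + 36 * N.r + 36 * N.r ^ 3) * N.t 0 ^ 2 + (63 + 81 * N.r + 45 * N.r ^ 2 + 27 * N.r ^ 3) * N.t 1 ^ 2 + (9 + 9 * N.r - 9 * N.r ^ 2 - 9 * N.r ^ 3) * N.t 2 ^ 2 + (18 + 18 * N.r - 18 * N.r ^ 2 - 18 * N.r ^ 3) * (-(N.h * N.ta 1 1)) + (6 * N.r - 8 * N.r ^ 2 - 4 * N.r ^ 3 + 8 * N.r ^ 4 - 2 * N.r ^ 5) := by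
  have hh := N.gauss 0 1 1 0
  rw [N.e_g110, N.e_g010] at hh
  simp only [Fin.sum_univ_three, N.diag, N.g010, N.g110, N.g210, N.g112, N.g012, N.g020, N.g120,
    N.g101, N.g102] at hh
  simp only [Fin.isValue, and_self, reduceIte, Fin.reduceEq] at hh
  have e1 := N.et11
  have e2 := N.la01
  have e3 := N.h2
  have e4 := N.ha1
  have e5 := N.ha3
  linear_combination (norm := (clear hh e1 e2; grind))
    (9 * (1 + N.r) * (1 - N.r) ^ 2) * hh - 9 * (1 + N.r) * e1 + (1 + N.r) * (1 - N.r) ^ 2 * e2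


/-- second sectional curvature -/
lemma et22 : 18 * (1 + N.r) * (1 - N.r) * N.e 2 (N.t 2) = (-9 - 9 * N.r + 9 * N.r ^ 2 + 9 * N.r ^ 3) * N.K + (9 + 18 * N.r + 9 * N.r ^ 2) * N.u ^ 2 + (-9 + 9 * N.r + 9 * N.r ^ 2 - 9 * N.r ^ 3) * N.t 0 ^ 2 + (-63 + 81 * N.r - 45 * N.r ^ 2 + 27 * N.r ^ 3) * N.t 1 ^ 2 + (-72 + 36 * N.r + 36 * N.r ^ 3) * N.t 2 ^ 2 + (18 - 18 * N.r - 18 * N.r ^ 2 + 18 * N.r ^ 3) * (-(N.h * N.ta 1 1)) + (6 * N.r + 8 * N.r ^ 2 - 4 * N.r ^ 3 - 8 * N.r ^ 4 - 2 * N.r ^ 5) := by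
  have hh := N.gauss 1 2 2 1
  rw [N.e_g221, N.e_g121] at hh
  simp only [Fin.sum_univ_three, N.diag, N.g001, N.g101, N.g201, N.g010, N.g110, N.g210, N.g112,
    N.g012, N.g212, N.g021, N.g121, N.g221, N.g020, N.g120, N.g220, N.g002, N.g102, N.g202] at hh
  simp only [Fin.isValue, and_self, reduceIte, Fin.reduceEq] at hh
  have e1 := N.et11
  have e2 := N.la12
  have e3 := N.h2
  have e4 := N.ha1
  have e5 := N.ha3
  linear_combination (norm := (clear hh e1 e2; grind))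
    (-9 * (1 + N.r) ^ 2 * (1 - N.r)) * hh - 9 * (1 - N.r) * e1 - (1 + N.r) ^ 2 * (1 - N.r) * e2

/-- the relation of the three sectional curvatures -/
lemma frel : (54 + 18 * N.r ^ 2) * N.K + 54 * N.u ^ 2 + (144 - 36 * N.r + 36 * N.r ^ 2) * N.t 0 ^ 2 + (90 + 54 * N.r ^ 2) * N.t 1 ^ 2 + (144 + 36 * N.r + 36 * N.r ^ 2) * N.t 2 ^ 2 + (-36 - 24 * N.r ^ 2 - 4 * N.r ^ 4) = 0 := by
  have hh := N.gauss 2 0 0 2
  rw [N.e_g002, N.e_g202] at hh
  simp only [Fin.sum_univ_three, N.diag, N.g001, N.g101, N.g201, N.g010, N.g110, N.g210, N.g112,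
    N.g012, N.g212, N.g021, N.g121, N.g221, N.g020, N.g120, N.g220, N.g002, N.g102, N.g202] at hh
  simp only [Fin.isValue, and_self, reduceIte, Fin.reduceEq] at hh
  have e0 := N.et00
  have e1 := N.et22
  have e2 := N.la20
  have e3 := N.h2
  have e4 := N.ha1
  have e5 := N.ha3
  linear_combination (norm := (clear hh e0 e1 e2; grind))
    (-36) * hh + N.a3 * e1 - N.a1 * e0 - 4 * e2

lemma eu0 : (1 + N.r) * (1 - N.r) * N.e 0 N.u = (6 - N.r + 2 * N.r ^ 2 + N.r ^ 3) * N.u * N.t 0 + (-6 - 7 * N.r - 3 * N.r ^ 2 - N.r ^ 3 + N.r ^ 4) * N.t 1 * N.t 2 + (1 + N.r - N.r ^ 2 - N.r ^ 3) * N.ta 2 1 := by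
  have hh := N.gauss 0 1 0 2
  rw [N.e_g102, N.e_g002] at hh
  simp only [Fin.sum_univ_three, N.diag, N.g001, N.g101, N.g201, N.g010, N.g110, N.g210, N.g112,
    N.g012, N.g212, N.g021, N.g121, N.g221, N.g020, N.g120, N.g220, N.g002, N.g102, N.g202] at hh
  simp only [Fin.isValue, true_and, and_false, reduceIte, Fin.reduceEq] at hh
  have e1 := N.et12
  have e3 := N.h2
  have e4 := N.ha1
  have e5 := N.ha3
  linear_combination (norm := (clear hh e1; grind))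
    (2 * (1 + N.r) * (1 - N.r)) * hh + (1 + N.r) * (1 - N.r) * N.h * e1

lemma eu1 : (1 + N.r) * (1 - N.r) * N.e 1 N.u = (5 * N.r + 3 * N.r ^ 3) * N.u * N.t 1 + (14 * N.r + 2 * N.r ^ 3) * N.t 0 * N.t 2 + (-2 + 2 * N.r ^ 2) * N.ta 2 0 := by
  have hh := N.gauss 0 1 1 2
  rw [N.e_g112, N.e_g012] at hh
  simp only [Fin.sum_univ_three, N.diag, N.g001, N.g101, N.g201, N.g010, N.g110, N.g210, N.g112,
    N.g012, N.g212, N.g021, N.g121, N.g221, N.g020, N.g120, N.g220, N.g002, N.g102, N.g202] at hh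
  simp only [Fin.isValue, true_and, and_false, reduceIte, Fin.reduceEq] at hh
  have e1 := N.et02
  have e3 := N.h2
  have e4 := N.ha1
  have e5 := N.ha3
  linear_combination (norm := (clear hh e1; grind))
    (-(1 + N.r) ^ 2 * (1 - N.r)) * hh - (1 - N.r) * e1

lemma eu2 : (1 + N.r) * (1 - N.r) * N.e 2 N.u = (-6 - N.r - 2 * N.r ^ 2 + N.r ^ 3) * N.u * N.t 2 + (6 - 7 * N.r + 3 * N.r ^ 2 - N.r ^ 3 - N.r ^ 4) * N.t 0 * N.t 1 + (1 - N.r - N.r ^ 2 + N.r ^ 3) * N.ta 0 1 := by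
  have hh := N.gauss 1 2 2 0
  rw [N.e_g220, N.e_g120] at hh
  simp only [Fin.sum_univ_three, N.diag, N.g001, N.g101, N.g201, N.g010, N.g110, N.g210, N.g112,
    N.g012, N.g212, N.g021, N.g121, N.g221, N.g020, N.g120, N.g220, N.g002, N.g102, N.g202] at hh
  simp only [Fin.isValue, true_and, and_false, reduceIte, Fin.reduceEq] at hh
  have e1 := N.et10
  have e3 := N.h2
  have e4 := N.ha1
  have e5 := N.ha3
  linear_combination (norm := (clear hh e1; grind))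
    (2 * (1 + N.r) * (1 - N.r)) * hh + (1 + N.r) * (1 - N.r) * N.h * e1

end NS

end Pool.Agent.Y167.BR
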