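import Mathlib
import Pool.Agent.Y167.BR.NSys2

set_option autoImplicit false

/-!
Job BR-L2: from the geometric differential algebra to the normalised system.
-/

namespace Pool.Agent.Y167.BR

open Y493.Br

section

variable {A : Type} [CommRing A] [Algebra ℝ A] (D : DA A)

/-- one half -/
noncomputable def hf (A : Type) [CommRing A] [Algebra ℝ A] : A := algebraMap ℝ A (1 / 2)

lemma two_hf : 2 * hf A = 1 := by
  rw [hf, ← map_ofNat (algebraMap ℝ A) 2, ← map_mul]
  norm_num

noncomputable def ds : A := hf A * (D.lam 0 - D.lam 2)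
noncomputable def dsi : A := -2 * D.iD 1
noncomputable def dr : A := 3 * hf A * D.lam 1 * dsi D
noncomputable def da1 : A := ds D * D.iD 0
noncomputable def da3 : A := ds D * D.iD 2
noncomputable def dt (l : Fin 3) : A := -(hf A * dsi D ^ 2 * D.e l (D.lam 1))

lemma s_si : ds D * dsi D = 1 := by
  simp only [ds, dsi]
  linear_combination D.inv1 + (D.iD 1 * (D.lam 2 - D.lam 0)) * two_hf (A := A)

lemma two_s : 2 * ds D = D.lam 0 - D.lam 2 := by
  simp only [ds]
  linear_combination (D.lam 0 - D.lam 2) * two_hf (A := A)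

lemma r_s : 2 * (dr D * ds D) = 3 * D.lam 1 := by
  simp only [dr]
  linear_combination (3 * D.lam 1 * (2 * hf A)) * s_si D + (3 * D.lam 1) * two_hf (A := A)

lemma s_p : ds D * (1 + dr D) = D.lam 1 - D.lam 2 := by
  linear_combination (hf A) * two_s D + hf A * r_s D + hf A * D.sum0
    - (ds D + dr D * ds D - D.lam 1 + D.lam 2) * two_hf (A := A)

lemma s_q : ds D * (1 - dr D) = D.lam 0 - D.lam 1 := by
  linear_combination (hf A) * two_s D - hf A * r_s D - hf A * D.sum0
    - (ds D - dr D * ds D - D.lam 0 + D.lam 1) * two_hf (A := A)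

lemma a1_p : da1 D * (1 + dr D) = 1 := by
  simp only [da1]
  linear_combination D.iD 0 * s_p D + D.inv0

lemma a3_q : da3 D * (1 - dr D) = 1 := by
  simp only [da3]
  linear_combination D.iD 2 * s_q D + D.inv2

lemma e_sum (l : Fin 3) : D.e l (D.lam 0) + D.e l (D.lam 1) + D.e l (D.lam 2) = 0 := by
  rw [← map_add, ← map_add, D.sum0, map_zero]

lemma e_sq (l : Fin 3) : D.lam 0 * D.e l (D.lam 0) + D.lam 1 * D.e l (D.lam 1)
    + D.lam 2 * D.e l (D.lam 2) = 0 := by
  have h := congrArg (D.e l) D.sumsq
  rw [map_add, map_add, Derivation.map_algebraMap, Derivation.leibniz_pow, Derivation.leibniz_pow,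
    Derivation.leibniz_pow] at h
  simp only [Nat.add_one_sub_one, pow_one, smul_eq_mul, nsmul_eq_mul, Nat.cast_ofNat] at h
  linear_combination hf A * h - (D.lam 0 * D.e l (D.lam 0) + D.lam 1 * D.e l (D.lam 1)
    + D.lam 2 * D.e l (D.lam 2)) * two_hf (A := A)

lemma e_l1 (l : Fin 3) : D.e l (D.lam 1) = -2 * ds D ^ 2 * dt D l := by
  simp only [dt]
  linear_combination -(2 * hf A * (ds D * dsi D + 1) * D.e l (D.lam 1)) * s_si D
    - D.e l (D.lam 1) * two_hf (A := A)

lemma e_l0' (l : Fin 3) : D.e l (D.lam 0) = -(hf A * (1 + dr D) * D.e l (D.lam 1)) := by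
  have h : 2 * ds D * D.e l (D.lam 0) = -(ds D * (1 + dr D) * D.e l (D.lam 1)) := by
    rw [s_p, two_s]
    linear_combination e_sq D l - D.lam 2 * e_sum D l
  linear_combination (dsi D * hf A) * h - (2 * hf A * D.e l (D.lam 0)) * s_si D
    - (D.e l (D.lam 0)) * two_hf (A := A) - (hf A * (1 + dr D) * D.e l (D.lam 1)) * s_si D

lemma e_l0 (l : Fin 3) : D.e l (D.lam 0) = ds D ^ 2 * (1 + dr D) * dt D l := by
  rw [e_l0', e_l1]
  linear_combination (ds D ^ 2 * (1 + dr D) * dt D l) * two_hf (A := A)

lemma e_l2 (l : Fin 3) : D.e l (D.lam 2) = ds D ^ 2 * (1 - dr D) * dt D l := by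
  have h0 := e_sum D l
  rw [e_l0, e_l1] at h0
  linear_combination h0

lemma e_hf (l : Fin 3) : D.e l (hf A) = 0 := Derivation.map_algebraMap _ _

lemma e_s (l : Fin 3) : D.e l (ds D) = dr D * ds D ^ 2 * dt D l := by
  simp only [ds]
  rw [Derivation.leibniz, e_hf, map_sub, e_l0, e_l2]
  simp only [smul_eq_mul]
  simp only [← ds.eq_1]
  linear_combination (dr D * ds D ^ 2 * dt D l) * two_hf (A := A)

lemma e_si (l : Fin 3) : D.e l (dsi D) = -(dr D * dt D l) := by
  have h : dsi D * ds D = 1 := by rw [mul_comm]; exact s_si D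
  rw [(D.e l).leibniz_of_mul_eq_one h, e_s, smul_eq_mul]
  linear_combination -(dr D * dt D l * (dsi D * ds D + 1)) * h

lemma e_two' (l : Fin 3) : D.e l 2 = 0 := by
  have := (D.e l).map_natCast 2
  simpa using this

lemma e_three' (l : Fin 3) : D.e l 3 = 0 := by
  have := (D.e l).map_natCast 3
  simpa using this

lemma e_r (l : Fin 3) : D.e l (dr D) = -(ds D * (3 + dr D ^ 2) * dt D l) := by
  have h := congrArg (D.e l) (r_s D)
  rw [Derivation.leibniz, Derivation.leibniz, Derivation.leibniz, e_two', e_three', e_s, e_l1] at h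
  simp only [smul_eq_mul] at h
  linear_combination (hf A * dsi D) * h - (2 * hf A * D.e l (dr D)) * s_si D
    - D.e l (dr D) * two_hf (A := A)
    - (hf A * (2 * dr D ^ 2 * ds D * dt D l + 6 * ds D * dt D l)) * s_si D
    - ((dr D ^ 2 * ds D * dt D l + 3 * ds D * dt D l)) * two_hf (A := A)


/-- the normalised derivations -/
noncomputable def de (l : Fin 3) : Derivation ℤ A A := dsi D • (D.e l).restrictScalars ℤ

lemma de_apply (l : Fin 3) (x : A) : de D l x = dsi D * D.e l x := rfl

lemma e_e (i j : Fin 3) (x : A) : de D i (de D j x)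
    = dsi D ^ 2 * D.e i (D.e j x) - dr D * dt D i * (dsi D * D.e j x) := by
  rw [de_apply, de_apply, Derivation.leibniz, e_si]
  simp only [smul_eq_mul]
  ring

lemma G_diag (i j : Fin 3) : D.G i j j = 0 := by
  have h := D.anti i j j
  linear_combination hf A * h - D.G i j j * two_hf (A := A)

/-- the common value -/
noncomputable def du0 : A := (D.lam 0 - D.lam 1) * D.G 2 0 1

lemma c001 : (D.lam 0 - D.lam 1) * D.G 0 0 1 = D.e 1 (D.lam 0) := by
  have h := D.cod 1 0 0
  simp only [reduceIte, Fin.isValue, Fin.reduceEq] at h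
  rw [D.anti 0 1 0] at h
  linear_combination -h

lemma c101 : (D.lam 0 - D.lam 1) * D.G 1 0 1 = D.e 0 (D.lam 1) := by
  have h := D.cod 0 1 1
  simp only [reduceIte, Fin.isValue, Fin.reduceEq] at h
  linear_combination -h

lemma c112 : (D.lam 1 - D.lam 2) * D.G 1 1 2 = D.e 2 (D.lam 1) := by
  have h := D.cod 2 1 1
  simp only [reduceIte, Fin.isValue, Fin.reduceEq] at h
  rw [D.anti 1 2 1] at h
  linear_combination -h

lemma c212 : (D.lam 1 - D.lam 2) * D.G 2 1 2 = D.e 1 (D.lam 2) := by
  have h := D.cod 1 2 2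
  simp only [reduceIte, Fin.isValue, Fin.reduceEq] at h
  linear_combination -h

lemma c020 : (D.lam 2 - D.lam 0) * D.G 0 2 0 = D.e 2 (D.lam 0) := by
  have h := D.cod 2 0 0
  simp only [reduceIte, Fin.isValue, Fin.reduceEq] at h
  linear_combination -h

lemma c220 : (D.lam 2 - D.lam 0) * D.G 2 2 0 = D.e 0 (D.lam 2) := by
  have h := D.cod 0 2 2
  simp only [reduceIte, Fin.isValue, Fin.reduceEq] at h
  rw [D.anti 2 0 2] at h
  linear_combination -h

lemma c012 : (D.lam 1 - D.lam 2) * D.G 0 1 2 = du0 D := by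
  have h := D.cod 2 0 1
  simp only [reduceIte, Fin.isValue, Fin.reduceEq] at h
  rw [D.anti 0 2 1] at h
  simp only [du0]
  linear_combination -h

lemma c120 : (D.lam 2 - D.lam 0) * D.G 1 2 0 = du0 D := by
  have h := D.cod 2 1 0
  simp only [reduceIte, Fin.isValue, Fin.reduceEq] at h
  rw [D.anti 2 1 0] at h
  simp only [du0]
  linear_combination -h


lemma l0s : 3 * D.lam 0 = ds D * (3 - dr D) := by
  linear_combination (hf A) * (3 * D.sum0 - 3 * two_s D + r_s D)
    - (3 * D.lam 0 - ds D * (3 - dr D)) * two_hf (A := A)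

lemma l2s : 3 * D.lam 2 = -(ds D * (3 + dr D)) := by
  linear_combination (hf A) * (3 * D.sum0 + 3 * two_s D + r_s D)
    - (3 * D.lam 2 + ds D * (3 + dr D)) * two_hf (A := A)

lemma ee_l1 (i j : Fin 3) : D.e i (D.e j (D.lam 1))
    = -2 * ds D ^ 2 * D.e i (dt D j) - 4 * dr D * ds D ^ 3 * dt D i * dt D j := by
  rw [e_l1, Derivation.leibniz, Derivation.leibniz, Derivation.leibniz_pow, e_s, map_neg, e_two']
  simp only [smul_eq_mul, nsmul_eq_mul, Nat.add_one_sub_one, pow_one, Nat.cast_ofNat]
  ring

lemma e_g (i j k l : Fin 3) : de D i (dsi D * D.G j k l)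
    = dsi D ^ 2 * D.e i (D.G j k l) - dr D * dt D i * (dsi D * D.G j k l) := by
  rw [de_apply, Derivation.leibniz, e_si]
  simp only [smul_eq_mul]
  ring

/-- the normalised geometric system of a differential algebra -/
noncomputable def toNS : NS A where
  e := de D
  r := dr D
  K := dsi D ^ 2
  u := dsi D ^ 2 * du0 D
  a1 := da1 D
  a3 := da3 D
  h := hf A
  t := dt D
  g := fun i j k => dsi D * D.G i j k
  la := fun i => dsi D * D.lam i
  h2 := two_hf
  ha1 := a1_p D
  ha3 := a3_q D
  er := by
    intro l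
    rw [de_apply, e_r]
    linear_combination (-((3 + dr D ^ 2) * dt D l)) * s_si D
  la0 := by
    linear_combination dsi D * l0s D + (3 - dr D) * s_si D
  la1 := by
    linear_combination -(dsi D) * r_s D + (2 * dr D) * s_si D
  la2 := by
    linear_combination dsi D * l2s D - (3 + dr D) * s_si D
  g001 := by
    have h := c001 D
    rw [e_l0] at h
    simp only [da3]
    linear_combination (dsi D * D.iD 2) * h - (dsi D * D.G 0 0 1) * D.inv2
      + (D.iD 2 * ds D * (1 + dr D) * dt D 1) * s_si D
  g101 := by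
    have h := c101 D
    rw [e_l1] at h
    simp only [da3]
    linear_combination (dsi D * D.iD 2) * h - (dsi D * D.G 1 0 1) * D.inv2
      - (2 * D.iD 2 * ds D * dt D 0) * s_si D
  g201 := by
    simp only [da3, du0]
    linear_combination -(dsi D * D.G 2 0 1 * (ds D * dsi D)) * D.inv2
      - (dsi D * D.G 2 0 1) * s_si D
  g012 := by
    have h := c012 D
    simp only [da1]
    linear_combination (dsi D * D.iD 0) * h - (dsi D * D.G 0 1 2) * D.inv0
      - (dsi D * D.iD 0 * du0 D) * s_si D
  g112 := by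
    have h := c112 D
    rw [e_l1] at h
    simp only [da1]
    linear_combination (dsi D * D.iD 0) * h - (dsi D * D.G 1 1 2) * D.inv0
      - (2 * D.iD 0 * ds D * dt D 2) * s_si D
  g212 := by
    have h := c212 D
    rw [e_l2] at h
    simp only [da1]
    linear_combination (dsi D * D.iD 0) * h - (dsi D * D.G 2 1 2) * D.inv0
      + (D.iD 0 * ds D * (1 - dr D) * dt D 1) * s_si D
  g020 := by
    have h := c020 D
    have h1 := s_si D
    have h2 := two_s D
    have h3 := two_hf (A := A)
    rw [e_l0] at h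
    have h4 : D.lam 2 - D.lam 0 = -(2 * ds D) := by linear_combination h2
    rw [h4] at h
    generalize D.G 0 2 0 = G at *
    generalize dt D 2 = t at *
    generalize dr D = r at *
    generalize dsi D = si at *
    generalize ds D = s at *
    generalize hf A = hh at *
    clear h2 h4
    grind
  g120 := by
    have h := c120 D
    have h1 := s_si D
    have h2 := two_s D
    have h3 := two_hf (A := A)
    have h4 : D.lam 2 - D.lam 0 = -(2 * ds D) := by linear_combination h2
    rw [h4] at h
    generalize D.G 1 2 0 = G at *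
    generalize du0 D = u at *
    generalize dsi D = si at *
    generalize ds D = s at *
    generalize hf A = hh at *
    clear h2 h4
    grind
  g220 := by
    have h := c220 D
    have h1 := s_si D
    have h2 := two_s D
    have h3 := two_hf (A := A)
    rw [e_l2] at h
    have h4 : D.lam 2 - D.lam 0 = -(2 * ds D) := by linear_combination h2
    rw [h4] at h
    generalize D.G 2 2 0 = G at *
    generalize dt D 0 = t at *
    generalize dr D = r at *
    generalize dsi D = si at *
    generalize ds D = s at *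
    generalize hf A = hh at *
    clear h2 h4
    grind
  anti := by
    intro i j k
    rw [D.anti i k j]
    ring
  diag := by
    intro i j
    rw [G_diag, mul_zero]
  tsymm := by
    intro i j
    have h := D.tors i j (D.lam 1)
    have h1 := s_si D
    have h3 := two_hf (A := A)
    rw [ee_l1, ee_l1] at h
    simp only [Fin.sum_univ_three, e_l1, de_apply] at h ⊢
    have h5 : D.e i (dt D j) - D.e j (dt D i) = (D.G i j 0 - D.G j i 0) * dt D 0
        + (D.G i j 1 - D.G j i 1) * dt D 1 + (D.G i j 2 - D.G j i 2) * dt D 2 := by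
      have h6 : dsi D ^ 2 * hf A * (2 * ds D ^ 2) = 1 := by
        linear_combination (2 * hf A * (dsi D * ds D + 1)) * h1 + h3
      linear_combination (-(dsi D ^ 2 * hf A)) * h - (D.e i (dt D j) - D.e j (dt D i)
        - (D.G i j 0 - D.G j i 0) * dt D 0 - (D.G i j 1 - D.G j i 1) * dt D 1
        - (D.G i j 2 - D.G j i 2) * dt D 2) * h6
    linear_combination dsi D * h5
  tors := by
    intro i j x
    rw [e_e, e_e]
    have h := D.tors i j x
    simp only [Fin.sum_univ_three, de_apply] at h ⊢
    linear_combination dsi D ^ 2 * h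
  gauss := by
    intro i j k l
    have h := D.gauss i j k l
    rw [e_g, e_g]
    simp only [Fin.sum_univ_three] at h ⊢
    linear_combination dsi D ^ 2 * h

end

section

variable {A : Type} [CommRing A] (N : NS A)

/-- the normalised system -/
noncomputable def toSys (unitN : ∀ n : ℕ, 0 < n → IsUnit (n : A))
    (eK : ∀ l, N.e l N.K = -2 * N.r * N.t l * N.K) : Sys A where
  e := N.e
  r := N.r
  K := N.K
  u := N.u
  t := N.t
  Y := ![-(N.h * N.ta 1 1), N.ta 1 2, N.ta 0 2, N.ta 0 1]
  unit1 := IsUnit.of_mul_eq_one _ (by rw [mul_comm]; exact N.ha1)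
  unit3 := IsUnit.of_mul_eq_one _ (by rw [mul_comm]; exact N.ha3)
  unitN := unitN
  er := N.er
  eK := eK
  et00 := N.et00
  et10 := N.et10
  et20 := N.et20
  et01 := by
    rw [N.et01, N.ta_symm 1 0]
    rfl
  et11 := by
    rw [N.et11]
    simp only [Matrix.cons_val_zero]
    linear_combination (-(1 - N.r ^ 2) * N.ta 1 1) * N.h2
  et21 := N.et21
  et02 := by
    rw [N.et02, N.ta_symm 2 0]
    rfl
  et12 := by
    rw [N.et12, N.ta_symm 2 1]
    rfl
  et22 := N.et22
  eu0 := by
    rw [N.eu0, N.ta_symm 2 1]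
    rfl
  eu1 := by
    rw [N.eu1, N.ta_symm 2 0]
    rfl
  eu2 := N.eu2
  frel := N.frel
  tors01 := N.tors01
  tors12 := N.tors12
  tors20 := N.tors20

end

theorem l2 : StL2 := by
  intro A _ _ D ev h21 h10
  have hN : ∀ n : ℕ, 0 < n → IsUnit (n : A) := by
    intro n hn
    have h1 : (n : A) = algebraMap ℝ A (n : ℝ) := by rw [map_natCast]
    rw [h1]
    exact (isUnit_iff_ne_zero.mpr (by exact_mod_cast hn.ne')).map _
  have hK : ∀ l, (toNS D).e l (toNS D).K = -2 * (toNS D).r * (toNS D).t l * (toNS D).K := by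
    intro l
    change dsi D * D.e l (dsi D ^ 2) = -2 * dr D * dt D l * dsi D ^ 2
    rw [Derivation.leibniz_pow, e_si]
    simp only [smul_eq_mul, nsmul_eq_mul, Nat.add_one_sub_one, pow_one, Nat.cast_ofNat]
    ring
  have hs : 0 < ev (ds D) := by
    have h := congrArg ev (two_s D)
    rw [map_mul, map_sub, map_ofNat] at h
    linarith
  have hsi : ev (dsi D) ≠ 0 := by
    intro h0
    have h := congrArg ev (s_si D)
    rw [map_mul, h0, mul_zero, map_one] at h
    exact zero_ne_one h
  refine ⟨toSys (toNS D) hN hK, ?_, ?_, ?_, ?_, ?_⟩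
  · change 0 < ev (dsi D ^ 2)
    rw [map_pow]
    positivity
  · change -1 < ev (dr D)
    have h := congrArg ev (s_p D)
    rw [map_mul, map_add, map_one, map_sub] at h
    have h1 : 0 < ev (ds D) * (1 + ev (dr D)) := by rw [h]; linarith
    have h2 := (pos_iff_pos_of_mul_pos h1).mp hs
    linarith
  · change ev (dr D) < 1
    have h := congrArg ev (s_q D)
    rw [map_mul, map_sub, map_one, map_sub] at h
    have h1 : 0 < ev (ds D) * (1 - ev (dr D)) := by rw [h]; linarith
    have h2 := (pos_iff_pos_of_mul_pos h1).mp hs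
    linarith
  · intro h0
    change 0 < ev (dr D)
    have h := congrArg ev (r_s D)
    rw [map_mul, map_mul, map_mul, map_ofNat, map_ofNat] at h
    have h1 : 0 < ev (ds D) * ev (dr D) := by nlinarith
    exact (pos_iff_pos_of_mul_pos h1).mp hs
  · intro k hk
    change ev (dt D k) = 0 at hk
    rw [e_l1, map_mul, hk, mul_zero]

end Pool.Agent.Y167.BR
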